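import Pool.Agent.H35.G4.DisE
import Pool.Agent.H65.G4.X1

/-!
# The requests of the vertices of type `X1`

`v` is an inner vertex of type `X1`, `e` an inner end of its special arc.  In every rotation at
`e` the two corners at `v` and the next one form the request pattern.
-/

set_option autoImplicit false

namespace Pool.Agent.H59.G4

open Relation Pool.Agent.H13.DA Pool.Agent.H72.G4 Pool.Agent.H96.G4 Pool.Agent.H13.G4
open Pool.Agent.H35.G4 Pool.Agent.H65.G4
open CT

variable {V : Type*} [DecidableEq V] {T : Finset (V × V × V)} {D : V → V → Prop} {a b c : V}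

/-- three faces at an edge: two apexes are equal -/
theorem face_three (cx : IsCx T) {v p x y z : V} (h1 : Face T v p x) (h2 : Face T v p y)
    (h3 : Face T v p z) : x = y ∨ x = z ∨ y = z := by
  have key : ∀ {x y : V}, (v, x, p) ∈ T → (v, y, p) ∈ T → x = y := fun h h' =>
    cx.uniq (cx.rot (cx.rot h)) (cx.rot (cx.rot h'))
  rcases h1 with h1 | h1 <;> rcases h2 with h2 | h2 <;> rcases h3 with h3 | h3
  · exact Or.inl (cx.uniq h1 h2)
  · exact Or.inl (cx.uniq h1 h2)
  · exact Or.inr (Or.inl (cx.uniq h1 h3))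
  · exact Or.inr (Or.inr (key h2 h3))
  · exact Or.inr (Or.inr (cx.uniq h2 h3))
  · exact Or.inr (Or.inl (key h1 h3))
  · exact Or.inl (key h1 h2)
  · exact Or.inl (key h1 h2)

/-- the non-adjacencies at a vertex of type `X1` -/
theorem X1.nar (hT : Ts T D a b c) {v p r s t : V} (hX : X1 T D v p r s t)
    (hv : ¬ Tr a b c v) : ¬ Ar D p s ∧ ¬ Ar D r t ∧ ¬ Ar D p t := by
  have cx := hT.pl.disc.cx
  have has := hT.pl.asymm
  have irr : ∀ u, ¬ D u u := fun u h => has u u h h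
  obtain ⟨hN, h1, h2, h3, h4, h21, h23, h43, f1, f2, f3, d, hd, g1, g2⟩ := hX
  have rp : Re D p := ⟨v, Or.inl h1⟩
  have rr : Re D r := ⟨v, Or.inl h2⟩
  have rs : Re D s := ⟨v, Or.inr h3⟩
  have rt : Re D t := ⟨v, Or.inr h4⟩
  have vp : Ar D v p := Or.inr h1
  have vr : Ar D v r := Or.inr h2
  have vs : Ar D v s := Or.inl h3
  have vt : Ar D v t := Or.inl h4
  have fc : ∀ {x y : V}, Ar D v x → Ar D v y → Ar D x y → Face T v x y := by
    intro x y k1 k2 k3
    rcases hT.fc v x y (hT.pl.ar_adj k1) (hT.pl.ar_adj k3) (hT.pl.ar_adj k2).symm with k | ⟨k, _⟩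
    · exact k
    · exact absurd k hv
  have fs : ∀ {x y z : V}, Face T x y z → Face T x z y := fun h => Or.symm h
  refine ⟨?_, ?_, ?_⟩
  · intro h
    rcases face_three cx f1 (fs g2) (fc vp vs h) with k | k | k
    · exact hd (k ▸ rr)
    · subst k; exact irr _ h23
    · exact hd (k ▸ rs)
  · intro h
    rcases face_three cx (fs f1) f2 (fc vr vt h) with k | k | k
    · subst k; exact has _ _ h1 h3
    · subst k; exact has _ _ h1 h4
    · subst k; exact irr _ h43
  · intro h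
    rcases face_three cx f1 (fs g2) (fc vp vt h) with k | k | k
    · exact hd (k ▸ rr)
    · subst k; exact has _ _ h2 h4
    · exact hd (k ▸ rt)

/-- **The request pattern.** -/
theorem req_core [Infinite V] (hM : MCw T D a b c) (hT : Ts T D a b c) {v p r s t : V}
    (hX : X1v T D v p r s t) (hv : ¬ Tr a b c v) (hgv : Good T D v) {e o : V}
    (he : (e = r ∧ o = s) ∨ (e = s ∧ o = r)) (hne : ¬ Tr a b c e) (hge : Good T D e)
    {n : ℕ} {x : Fin (n + 1) → V} {w : Fin (n + 1) → CT} (R : Rot T D e n x w) :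
    ∃ j, x (j + 1) = v ∧
      ((rqR (w j) (w (j + 1)) (w (j + 1 + 1)) = true ∧ x (j + 1 + 1) = o) ∨
        (rqL (w (j - 1)) (w j) (w (j + 1)) = true ∧ x j = o)) := by
  have cx := hT.pl.disc.cx
  have has := hT.pl.asymm
  have irr : ∀ u, ¬ D u u := fun u h => has u u h h
  obtain ⟨hN, h1, h2, h3, h4, h21, h23, h43, f1, f2, f3, n13, n24, n14⟩ := hX
  have rv : Re D v := ⟨p, Or.inr h1⟩
  -- the third vertex `z`
  obtain ⟨z, hz, fz, fo, hev, heo, hez, hvo, hvz⟩ : ∃ z, Re D z ∧ Face T e v z ∧ Face T e v o ∧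
      Ar D e v ∧ Ar D e o ∧ ((D e z ∧ D e v ∧ D e o) ∨ (D z e ∧ D v e ∧ D o e)) ∧
      ((D e v ∧ D v o) ∨ (D v e ∧ D o v)) ∧ ((D e v ∧ D z v) ∨ (D v e ∧ D v z)) := by
    have fx : ∀ {x y z : V}, Face T x y z → Face T y x z := by
      intro x y z h
      rcases h with h | h
      · exact Or.inr (cx.rot h)
      · exact Or.inl (cx.rot (cx.rot h))
    have fs : ∀ {x y z : V}, Face T x y z → Face T x z y := fun h => Or.symm h
    rcases he with ⟨rfl, rfl⟩ | ⟨rfl, rfl⟩
    · exact ⟨p, ⟨v, Or.inl h1⟩, fx (fs f1), fx f2, Or.inl h2, Or.inl h23,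
        Or.inl ⟨h21, h2, h23⟩, Or.inl ⟨h2, h3⟩, Or.inl ⟨h2, h1⟩⟩
    · exact ⟨t, ⟨v, Or.inr h4⟩, fx f3, fx (fs f2), Or.inr h3, Or.inr h23,
        Or.inr ⟨h43, h3, h23⟩, Or.inr ⟨h3, h2⟩, Or.inr ⟨h3, h4⟩⟩
  have ro : Re D o := (ar_re heo).2
  have hzo : z ≠ o := by
    rintro rfl
    rcases hvo with ⟨k1, k2⟩ | ⟨k1, k2⟩ <;> rcases hvz with ⟨k3, k4⟩ | ⟨k3, k4⟩
    · exact has _ _ k2 k4
    · exact has _ _ k1 k3
    · exact has _ _ k1 k3
    · exact has _ _ k2 k4
  -- the position of `v`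
  obtain ⟨i, hi⟩ := (R.nb v).1 hev
  have key : ∀ {y y' : V}, (e, y, v) ∈ T → (e, v, y') ∈ T → Re D y → Re D y' → Ar D e y →
      x (i - 1) = y ∧ x (i - 1 + 1) = v ∧ x (i - 1 + 1 + 1) = y' ∧ w (i - 1) ≠ q ∧
        w (i - 1 + 1) ≠ q := by
    intro y y' k1 k2 k3 k4 k5
    obtain ⟨l, hl⟩ := (R.nb y).1 k5
    rw [hl] at k1
    obtain ⟨m1, m2⟩ := R.nx l v rv k1
    rw [hi] at m1 k2
    have hli : i = l + 1 := R.inj m1
    obtain ⟨m3, m4⟩ := R.nx i y' k4 k2
    have e1 : i - 1 = l := by rw [hli, add_sub_cancel_right]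
    have e2 : i - 1 + 1 = i := by rw [sub_add_cancel]
    refine ⟨?_, ?_, ?_, ?_, ?_⟩
    · rw [e1, hl]
    · rw [e2, hi]
    · rw [e2, m3]
    · rw [e1]; exact m2
    · rw [e2]; exact m4
  have red : ∀ {q' : V}, ((o, e, v) ∈ T ∧ (e, o, q') ∈ T) ∨ ((o, e, q') ∈ T ∧ (e, o, v) ∈ T) →
      Re D q' → (D q' o ↔ D q' e) → False := by
    intro q' k1 k2 k3
    exact red_X1 hM hT hv hgv hN h1 h2 h3 h4 h21 h23 h43 n13 n24 n14
      (y := e) (x := o) he hne hge k1 k2 k3
  have hez' : Ar D e z := hez.elim (fun h => Or.inl h.1) (fun h => Or.inr h.1)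
  rcases fz with fz | fz
  · -- `(e, v, z)`, hence `(e, o, v)`
    have fo' : (e, o, v) ∈ T := by
      rcases fo with fo | fo
      · exact absurd (cx.uniq fz fo) hzo
      · exact fo
    obtain ⟨e1, e2, e3, e4, e5⟩ := key fo' fz ro hz heo
    refine ⟨i - 1, e2, Or.inr ⟨?_, e1⟩⟩
    have c0 := R.cor (i - 1)
    have c1 := R.cor (i - 1 + 1)
    rw [e1, e2] at c0
    rw [e2, e3] at c1
    have w0 : w (i - 1) = s1 := by
      cases hw : w (i - 1)
      · exact absurd hw e4
      · rfl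
      · rw [hw] at c0
        exfalso
        rcases c0.2 with ⟨k1, k2, k3⟩ | ⟨k1, k2, k3⟩ <;> rcases hvo with ⟨k4, k5⟩ | ⟨k4, k5⟩
        · exact has _ _ k3 k5
        · exact has _ _ k2 k4
        · exact has _ _ k2 k4
        · exact has _ _ k3 k5
      · rw [hw] at c0
        exfalso
        rcases c0.2 with ⟨k1, k2, k3⟩ | ⟨k1, k2, k3⟩ <;>
          rcases hez with ⟨k4, k5, k6⟩ | ⟨k4, k5, k6⟩
        · exact has _ _ k1 k6
        · exact has _ _ k2 k5
        · exact has _ _ k2 k5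
        · exact has _ _ k1 k6
    have w1 : w (i - 1 + 1) = s1 := by
      cases hw : w (i - 1 + 1)
      · exact absurd hw e5
      · rfl
      · rw [hw] at c1
        exfalso
        rcases c1.2 with ⟨k1, k2, k3⟩ | ⟨k1, k2, k3⟩ <;> rcases hvz with ⟨k4, k5⟩ | ⟨k4, k5⟩
        · exact has _ _ k3 k5
        · exact has _ _ k1 k4
        · exact has _ _ k1 k4
        · exact has _ _ k3 k5
      · rw [hw] at c1
        exfalso
        rcases c1.2 with ⟨k1, k2, k3⟩ | ⟨k1, k2, k3⟩ <;>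
          rcases hez with ⟨k4, k5, k6⟩ | ⟨k4, k5, k6⟩
        · exact has _ _ k1 k5
        · exact has _ _ k2 k4
        · exact has _ _ k2 k4
        · exact has _ _ k1 k5
    rw [w0, w1]
    cases hcr : (w (i - 1 - 1)).cr
    · exfalso
      have c := R.cor (i - 1 - 1)
      rw [sub_add_cancel, e1] at c
      obtain ⟨l1, l2, l3, l4⟩ := c.right hT hcr
      refine red (q' := x (i - 1 - 1)) (Or.inr ⟨cx.rot (cx.rot l1), fo'⟩) (ar_re l2).2 ?_
      exact l4
    · unfold rqL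
      rw [hcr]
      rfl
  · -- `(e, z, v)`, hence `(e, v, o)`
    have fo' : (e, v, o) ∈ T := by
      rcases fo with fo | fo
      · exact fo
      · exact absurd (cx.uniq (cx.rot (cx.rot fz)) (cx.rot (cx.rot fo))) hzo
    obtain ⟨e1, e2, e3, e4, e5⟩ := key fz fo' hz ro hez'
    refine ⟨i - 1, e2, Or.inl ⟨?_, e3⟩⟩
    have c0 := R.cor (i - 1)
    have c1 := R.cor (i - 1 + 1)
    rw [e1, e2] at c0
    rw [e2, e3] at c1
    have w0 : w (i - 1) = s2 := by
      cases hw : w (i - 1)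
      · exact absurd hw e4
      · rw [hw] at c0
        exfalso
        rcases c0.2 with ⟨k1, k2, k3⟩ | ⟨k1, k2, k3⟩ <;> rcases hvz with ⟨k4, k5⟩ | ⟨k4, k5⟩
        · exact has _ _ k3 k5
        · exact has _ _ k2 k4
        · exact has _ _ k2 k4
        · exact has _ _ k3 k5
      · rfl
      · rw [hw] at c0
        exfalso
        rcases c0.2 with ⟨k1, k2, k3⟩ | ⟨k1, k2, k3⟩ <;>
          rcases hez with ⟨k4, k5, k6⟩ | ⟨k4, k5, k6⟩
        · exact has _ _ k1 k4
        · exact has _ _ k2 k5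
        · exact has _ _ k2 k5
        · exact has _ _ k1 k4
    have w1 : w (i - 1 + 1) = s2 := by
      cases hw : w (i - 1 + 1)
      · exact absurd hw e5
      · rw [hw] at c1
        exfalso
        rcases c1.2 with ⟨k1, k2, k3⟩ | ⟨k1, k2, k3⟩ <;> rcases hvo with ⟨k4, k5⟩ | ⟨k4, k5⟩
        · exact has _ _ k3 k5
        · exact has _ _ k1 k4
        · exact has _ _ k1 k4
        · exact has _ _ k3 k5
      · rfl
      · rw [hw] at c1
        exfalso
        rcases c1.2 with ⟨k1, k2, k3⟩ | ⟨k1, k2, k3⟩ <;>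
          rcases hez with ⟨k4, k5, k6⟩ | ⟨k4, k5, k6⟩
        · exact has _ _ k1 k5
        · exact has _ _ k2 k6
        · exact has _ _ k2 k6
        · exact has _ _ k1 k5
    rw [w0, w1]
    cases hcl : (w (i - 1 + 1 + 1)).cl
    · exfalso
      have c := R.cor (i - 1 + 1 + 1)
      rw [e3] at c
      obtain ⟨l1, l2, l3, l4⟩ := c.left hT hcl
      refine red (q' := x (i - 1 + 1 + 1 + 1)) (Or.inl ⟨cx.rot (cx.rot fo'), l1⟩)
        (ar_re l2).2 l4
    · unfold rqR
      rw [hcl]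
      rfl

/-- the pattern at an inner end of the special arc -/
theorem req_pat [Infinite V] {X : Finset (V × V × V)} {Z : List V} (hM : MCw T D a b c)
    (hT : Ts T D a b c) (hR : Reg T X D Z) (hg : ∀ u, In X D Z u → Good T D u) {v e o : V}
    (hv : In X D Z v) (hq : Req T D v e o) (he : In X D Z e) {n : ℕ} {x : Fin (n + 1) → V}
    {w : Fin (n + 1) → CT} (R : Rot T D e n x w) :
    ∃ j, x (j + 1) = v ∧
      ((rqR (w j) (w (j + 1)) (w (j + 1 + 1)) = true ∧ x (j + 1 + 1) = o) ∨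
        (rqL (w (j - 1)) (w j) (w (j + 1)) = true ∧ x j = o)) := by
  obtain ⟨p, r, s, t, hX, hb⟩ := hq
  exact req_core hM hT hX (hR.inner hT hv.1 hv.2.2) (hg v hv) hb (hR.inner hT he.1 he.2.2)
    (hg e he) R

/-- **the number of requests at an inner vertex** (piece C4) -/
theorem tb_le [Infinite V] {X : Finset (V × V × V)} {Z : List V} (hM : MCw T D a b c)
    (hT : Ts T D a b c) (hR : Reg T X D Z) (hg : ∀ u, In X D Z u → Good T D u) {e : V}
    (he : In X D Z e) {n : ℕ} {x : Fin (n + 1) → V} {w : Fin (n + 1) → CT}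
    (R : Rot T D e n x w) : tb T X D Z e ≤ tR w + tL w := by
  classical
  unfold tb tR tL
  have hsub : (inn X D Z).filter (fun v => ∃ o, Req T D v e o) ⊆
      ((Finset.univ.filter (fun i => rqR (w i) (w (i + 1)) (w (i + 1 + 1)) = true)) ∪
        (Finset.univ.filter (fun i => rqL (w (i - 1)) (w i) (w (i + 1)) = true))).image
        (fun j => x (j + 1)) := by
    intro v hv
    obtain ⟨hv1, o, hv2⟩ := Finset.mem_filter.1 hv
    obtain ⟨j, h1, h2⟩ := req_pat hM hT hR hg (mem_inn.1 hv1) hv2 he R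
    rw [Finset.mem_image]
    refine ⟨j, ?_, h1⟩
    rw [Finset.mem_union, Finset.mem_filter, Finset.mem_filter]
    exact h2.imp (fun k => ⟨Finset.mem_univ _, k.1⟩) (fun k => ⟨Finset.mem_univ _, k.1⟩)
  refine (Finset.card_le_card hsub).trans (Finset.card_image_le.trans ?_)
  exact Finset.card_union_le _ _

end Pool.Agent.H59.G4
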